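import Mathlib
import Pool.Agent.H317.GH.Stm

/-!
# Project GH (helper317): compatibility with the congruence kernels (helper84)

`keq` proves `S_KEQ` from `S_PRX`, `S_PAI`, `S_CNJ`, `S_INH`, `S_MOE`.
(The small lemmas on traces and on `dl` are those of `Pool/Agent/H767/GR/SIG.lean`.)
-/

set_option autoImplicit false

namespace Pool.Agent.H84.GH

open Matrix Module Pool.Agent.H317.GR Pool.Agent.H317.GH

theorem trace_map' {n : ℕ} {R S : Type} [CommRing R] [CommRing S] (f : R →+* S)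
    (A : Matrix (Fin n) (Fin n) R) : (A.map f).trace = f A.trace := by
  simp [Matrix.trace, map_sum]

theorem dl_map' {n : ℕ} {R S : Type} [CommRing R] [CommRing S] (r : R →+* S)
    (A : SpecialLinearGroup (Fin n) R) :
    SpecialLinearGroup.map r (dl n R A) = dl n S (SpecialLinearGroup.map r A) := by
  apply Subtype.ext
  change ((A⁻¹).valᵀ).map r = ((SpecialLinearGroup.map r A)⁻¹).valᵀ
  rw [← map_inv]
  rfl

theorem dl_eq_one' {n : ℕ} {R : Type} [CommRing R] (A : SpecialLinearGroup (Fin n) R) :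
    dl n R A = 1 ↔ A = 1 := by
  constructor
  · intro h
    have h1 : (A⁻¹).valᵀ = 1 := congrArg Subtype.val h
    have h2 : (A⁻¹).val = 1 := by
      rw [← Matrix.transpose_transpose (A⁻¹).val, h1, Matrix.transpose_one]
    have h3 : A⁻¹ = 1 := Subtype.ext h2
    exact inv_eq_one.mp h3
  · rintro rfl
    exact map_one _

theorem dl_trace' {n : ℕ} {R : Type} [CommRing R] (A : SpecialLinearGroup (Fin n) R) :
    (dl n R A).val.trace = (A⁻¹).val.trace := by
  change ((A⁻¹).valᵀ).trace = _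
  rw [Matrix.trace_transpose]

theorem toQ_trace' {n p : ℕ} [Fact p.Prime] (A : SpecialLinearGroup (Fin n) ℤ_[p]) :
    (toQ n p A).val.trace = ((A.val.trace : ℤ_[p]) : ℚ_[p]) := by
  change (A.val.map (algebraMap ℤ_[p] ℚ_[p])).trace = _
  rw [trace_map']
  rfl

theorem toQ_inj' (n p : ℕ) [Fact p.Prime] : Function.Injective (toQ n p) := by
  intro A B h
  have h1 : (toQ n p A).val = (toQ n p B).val := by rw [h]
  apply Subtype.ext
  ext i j
  have h2 := congrFun (congrFun h1 i) j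
  change algebraMap ℤ_[p] ℚ_[p] (A.val i j) = algebraMap ℤ_[p] ℚ_[p] (B.val i j) at h2
  exact (FaithfulSMul.algebraMap_injective ℤ_[p] ℚ_[p]) h2

theorem glmap_inj' (n : ℕ) (K L : Type) [Field K] [Field L] (j : K →+* L) :
    Function.Injective (GeneralLinearGroup.map (n := Fin n) j) := by
  intro A B h
  have h1 : (GeneralLinearGroup.map j A).val = (GeneralLinearGroup.map j B).val := by rw [h]
  apply Units.ext
  ext a b
  have h2 := congrFun (congrFun h1 a) b
  change j (A.val a b) = j (B.val a b) at h2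
  exact j.injective h2

theorem glmap_toQ_trace {n p : ℕ} [Fact p.Prime] {L : Type} [Field L] (j : ℚ_[p] →+* L)
    (A : SpecialLinearGroup (Fin n) ℤ_[p]) :
    (GeneralLinearGroup.map j (toQ n p A)).val.trace = j ((A.val.trace : ℤ_[p]) : ℚ_[p]) := by
  change ((toQ n p A).val.map j).trace = _
  rw [trace_map', toQ_trace']

/-- **KEQ**. -/
theorem keq : S_PRX → S_PAI → S_CNJ → S_INH → S_MOE → S_KEQ := by
  intro hPRX hPAI hCNJ hINH hMOE n hn Λ₁ Λ₂ _ _ _ hq1 hq2 f₁ f₂ hf₁ hf₂ ρ₁ ρ₂ hρ₁ hρ₂ hd hinj φ hφ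
  have hh : Compat (fun m => (f₂ m).comp φ) := by
    intro m m' hm hm' g
    exact hf₂ m m' hm hm' (φ g)
  refine hMOE n Λ₁ f₁ (fun m => (f₂ m).comp φ) hf₁ hh ?_
  intro p hp
  have hCZ : CharZero (AlgebraicClosure ℚ_[p]) :=
    charZero_of_injective_algebraMap (algebraMap ℚ_[p] (AlgebraicClosure ℚ_[p])).injective
  obtain ⟨hT1, hT2, -, hT4⟩ := hPAI n hn p Λ₁ (ρ₁ p) (hd p)
  have ιinj : Function.Injective
      (fun x : ℤ_[p] => algebraMap ℚ_[p] (AlgebraicClosure ℚ_[p]) (x : ℚ_[p])) :=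
    (algebraMap ℚ_[p] (AlgebraicClosure ℚ_[p])).injective.comp Subtype.val_injective
  -- the traces of `ρ₂ ∘ φ`
  have htr : (∀ g, (ρ₂ p (φ g)).val.trace = (ρ₁ p g).val.trace) ∨
      (∀ g, (ρ₂ p (φ g)).val.trace = (ρ₁ p g⁻¹).val.trace) := by
    have hτinf : (Set.range ((GeneralLinearGroup.map (algebraMap ℚ_[p]
        (AlgebraicClosure ℚ_[p]))).comp ((toQ n p).comp (ρ₁ p)))).Infinite := by
      intro hfin
      apply hT1
      refine Set.Finite.of_finite_image (f := fun x : ℤ_[p] =>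
        algebraMap ℚ_[p] (AlgebraicClosure ℚ_[p]) (x : ℚ_[p])) ?_ ιinj.injOn
      refine Set.Finite.subset (hfin.image (fun A => A.val.trace)) ?_
      rintro _ ⟨_, ⟨g, rfl⟩, rfl⟩
      exact ⟨_, ⟨g, rfl⟩, glmap_toQ_trace _ _⟩
    have hτ'inf : (Set.range ((GeneralLinearGroup.map (algebraMap ℚ_[p]
        (AlgebraicClosure ℚ_[p]))).comp ((toQ n p).comp ((ρ₂ p).comp φ)))).Infinite := by
      intro hfin
      apply hφ
      refine Set.Finite.of_finite_image (f := fun x : Λ₂ => GeneralLinearGroup.map (algebraMap ℚ_[p]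
        (AlgebraicClosure ℚ_[p])) (toQ n p (ρ₂ p x))) ?_ ?_
      · refine Set.Finite.subset hfin ?_
        rintro _ ⟨_, ⟨g, rfl⟩, rfl⟩
        exact ⟨g, rfl⟩
      · exact Function.Injective.injOn (fun x y h => hinj p (toQ_inj' n p (glmap_inj' n _ _ _ h)))
    have hne : ∃ g, (((GeneralLinearGroup.map (algebraMap ℚ_[p]
        (AlgebraicClosure ℚ_[p]))).comp ((toQ n p).comp (ρ₁ p))) g).val.trace ≠
        (((GeneralLinearGroup.map (algebraMap ℚ_[p]
        (AlgebraicClosure ℚ_[p]))).comp ((toQ n p).comp (ρ₁ p))) g⁻¹).val.trace := by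
      obtain ⟨g, hg⟩ := hT2
      refine ⟨g, fun h => hg ?_⟩
      apply ιinj
      refine (glmap_toQ_trace _ _).symm.trans (h.trans (glmap_toQ_trace _ _))
    rcases hPRX n hn Λ₁ hq1 hq2 (AlgebraicClosure ℚ_[p]) _ _ hτinf hτ'inf hne with h | h
    · refine Or.inl fun g => ιinj ?_
      exact (glmap_toQ_trace _ _).symm.trans ((h g).trans (glmap_toQ_trace _ _))
    · refine Or.inr fun g => ιinj ?_
      exact (glmap_toQ_trace _ _).symm.trans ((h g).trans (glmap_toQ_trace _ _))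
  -- the intertwining matrix
  have key : ∀ (ρ' : Λ₁ →* SpecialLinearGroup (Fin n) ℤ_[p]), DenseP ρ' →
      (∀ g, (ρ' g).val.trace = (ρ₂ p (φ g)).val.trace) →
      ∃ T : GL (Fin n) ℤ_[p], ∀ g, SpecialLinearGroup.toGL (((ρ₂ p).comp φ) g) * T =
        T * SpecialLinearGroup.toGL (ρ' g) := by
    intro ρ' hd' htr'
    have hAI := (hPAI n hn p Λ₁ ρ' hd').2.2.1
    obtain ⟨P, hP⟩ := hCNJ ℚ_[p] Λ₁ n ((toQ n p).comp ρ') ((toQ n p).comp ((ρ₂ p).comp φ)) hAI (by
      intro g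
      change (toQ n p (ρ' g)).val.trace = (toQ n p (ρ₂ p (φ g))).val.trace
      rw [toQ_trace', toQ_trace', htr'])
    exact hINH n (by omega) p Λ₁ ρ' ((ρ₂ p).comp φ) hd' P hP
  rcases htr with h | h
  · obtain ⟨T, hT⟩ := key (ρ₁ p) (hd p) (fun g => (h g).symm)
    refine ⟨ρ₁ p, (ρ₂ p).comp φ, T, fun k g => by rw [hρ₁], fun k g => ?_, hT⟩
    change SpecialLinearGroup.map (PadicInt.toZModPow k) (ρ₂ p (φ g)) = 1 ↔ f₂ (p ^ k) (φ g) = 1
    rw [hρ₂]
  · obtain ⟨T, hT⟩ := key ((dl n ℤ_[p]).comp (ρ₁ p)) hT4 (by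
      intro g
      change (dl n ℤ_[p] (ρ₁ p g)).val.trace = _
      rw [dl_trace', ← map_inv, h])
    refine ⟨(dl n ℤ_[p]).comp (ρ₁ p), (ρ₂ p).comp φ, T, fun k g => ?_, fun k g => ?_, hT⟩
    · change SpecialLinearGroup.map (PadicInt.toZModPow k) (dl n ℤ_[p] (ρ₁ p g)) = 1 ↔ _
      rw [dl_map', dl_eq_one', hρ₁]
    · change SpecialLinearGroup.map (PadicInt.toZModPow k) (ρ₂ p (φ g)) = 1 ↔ f₂ (p ^ k) (φ g) = 1
      rw [hρ₂]

end Pool.Agent.H84.GH
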